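import Pool.Agent.H24.SCG2.Stmts2
import Pool.Agent.H82.SCG.BV

/-!
BVw: strings of homologies do not generate `SL(3,F)` (port of `Pool/Agent/H82/SCG/BV.lean`).
-/

namespace Pool.Agent.H1.SCG2

open Pool.SCG Matrix Pool.Agent.H82.SCG

theorem bvw_thm (hINV : Pool.SCG.INVStmt) (hHCM : Pool.SCG.HCMStmt) : Pool.SCG.BVwStmt := by
  intro F _ _ hG r ρ hinv hs hfar hadj
  by_contra hcon
  push Not at hcon
  have h2 : (2 : F) ≠ 0 := hG.1
  have hhom : ∀ i, ∃ v φ : Fin 3 → F, IsHom (ρ i) v φ := by
    intro i
    rcases hINV F h2 (ρ i) (hinv i).1 (hinv i).2 with h | h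
    · exact h
    · rw [hs i] at h
      exact absurd h.1 Bool.false_ne_true
  choose v φ hh using hhom
  have hact : ∀ i w, ((ρ i).m : M3 F) *ᵥ w = (2 * (φ i ⬝ᵥ w)) • v i - w :=
    fun i w => hom_mulVec (hh i) w
  have hone : ∀ i, φ i ⬝ᵥ v i = 1 := fun i => (hh i).2.1
  have hirr := irr_space ρ hs (fun i => (hinv i).2) hcon
  -- separation lemma
  have hsep : ∀ S : Set (Fin r), (∀ j ∈ S, ∀ k, k ∉ S → φ k ⬝ᵥ v j = 0) → ∀ j ∈ S, ∀ k, k ∈ S := by
    intro S hS j hj k
    by_contra hk
    set W : Submodule F (Fin 3 → F) := Submodule.span F (v '' S) with hWdef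
    have hker : ∀ l, l ∉ S → ∀ w ∈ W, φ l ⬝ᵥ w = 0 := by
      intro l hl w hw
      induction hw using Submodule.span_induction with
      | mem x h =>
        obtain ⟨j, hj, rfl⟩ := h
        exact hS j hj l hl
      | zero => simp
      | add x y _ _ hx hy => rw [dotProduct_add, hx, hy, add_zero]
      | smul a x _ hx => rw [dotProduct_smul, hx, smul_zero]
    have hinvW : ∀ i, ∀ w, w ∈ W → ((ρ i).m : M3 F) *ᵥ w ∈ W := by
      intro i w hw
      rw [hact]
      by_cases hi : i ∈ S
      · exact W.sub_mem (W.smul_mem _ (Submodule.subset_span ⟨i, hi, rfl⟩)) hw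
      · rw [hker i hi w hw, mul_zero, zero_smul]
        exact W.sub_mem W.zero_mem hw
    rcases hirr W hinvW with h | h
    · have : v j ∈ W := Submodule.subset_span ⟨j, hj, rfl⟩
      rw [h, Submodule.mem_bot] at this
      have h1 := hone j
      rw [this, dotProduct_zero] at h1
      exact zero_ne_one h1
    · have : v k ∈ W := by rw [h]; trivial
      have h1 := hker k hk _ this
      rw [hone k] at h1
      exact one_ne_zero h1
  -- the centres span
  have hspan : Submodule.span F (Set.range v) = ⊤ := by
    have hinvW : ∀ i, ∀ w, w ∈ Submodule.span F (Set.range v) →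
        ((ρ i).m : M3 F) *ᵥ w ∈ Submodule.span F (Set.range v) := by
      intro i w hw
      rw [hact]
      exact Submodule.sub_mem _ (Submodule.smul_mem _ _ (Submodule.subset_span ⟨i, rfl⟩)) hw
    rcases hirr _ hinvW with h | h
    · exfalso
      have hr : ∀ i : Fin r, False := by
        intro i
        have : v i ∈ Submodule.span F (Set.range v) := Submodule.subset_span ⟨i, rfl⟩
        rw [h, Submodule.mem_bot] at this
        have h1 := hone i
        rw [this, dotProduct_zero] at h1
        exact zero_ne_one h1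
      have := irr_form ρ hs hcon LinearMap.id (fun i => (hr i).elim) (Pi.single 0 1) (Pi.single 0 1)
      simp at this
    · exact h
  -- far homologies are orthogonal
  have hfar0 : ∀ i j : Fin r, i.val + 2 ≤ j.val → ρ i ≠ ρ j := by
    intro i j hij heq
    have hr := j.isLt
    by_cases h1 : i.val + 3 ≤ j.val
    · have hk : i.val + 1 < r := by omega
      apply hadj i ⟨i.val + 1, hk⟩ rfl
      have := hfar ⟨i.val + 1, hk⟩ j (by simp only []; omega)
      rw [heq]; exact this.symm
    · have hj : j.val = i.val + 2 := by omega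
      by_cases hi : 1 ≤ i.val
      · have hk : i.val - 1 < r := by omega
        apply hadj ⟨i.val - 1, hk⟩ i (by simp only []; omega)
        have := hfar ⟨i.val - 1, hk⟩ j (by simp only []; omega)
        rw [heq]; exact this
      · by_cases hr3 : 3 < r
        · apply hadj j ⟨3, hr3⟩ (by simp only []; omega)
          have := hfar i ⟨3, hr3⟩ (by simp only []; omega)
          rw [← heq]; exact this
        · -- r = 3, the centres of 0 and 2 are proportional
          have hr' : r = 3 := by omega
          subst hr'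
          have hi0 : i = 0 := by apply Fin.ext; show i.val = 0; omega
          have hj2 : j = 2 := by apply Fin.ext; show j.val = 2; omega
          subst hi0; subst hj2
          have e1 := hact 0 (v 0)
          have e2 := hact 2 (v 0)
          rw [heq, e2, hone 0, mul_one] at e1
          have e3 : v 0 = (φ 2 ⬝ᵥ v 0) • v 2 := by
            have e4 : (2 : F) • v 0 = (2 * (φ 2 ⬝ᵥ v 0)) • v 2 := (sub_left_inj.1 e1).symm
            have e5 := congrArg (fun z => (2 : F)⁻¹ • z) e4
            simp only [smul_smul] at e5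
            rw [inv_mul_cancel₀ h2, one_smul, ← mul_assoc, inv_mul_cancel₀ h2, one_mul] at e5
            exact e5
          have hle : Submodule.span F (Set.range v) ≤ Submodule.span F (Set.range ![v 1, v 2]) := by
            rw [Submodule.span_le]
            rintro _ ⟨k, rfl⟩
            have m1 : v 1 ∈ Submodule.span F (Set.range ![v 1, v 2]) :=
              Submodule.subset_span ⟨0, rfl⟩
            have m2 : v 2 ∈ Submodule.span F (Set.range ![v 1, v 2]) :=
              Submodule.subset_span ⟨1, rfl⟩
            fin_cases k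
            · show v 0 ∈ _
              rw [e3]
              exact Submodule.smul_mem _ _ m2
            · exact m1
            · exact m2
          rw [hspan, top_le_iff] at hle
          have hd := finrank_range_le_card (R := F) (b := ![v 1, v 2])
          rw [Set.finrank, hle, finrank_top, Module.finrank_fin_fun, Fintype.card_fin] at hd
          omega
  have hfarφ : ∀ i j : Fin r, (i.val + 2 ≤ j.val ∨ j.val + 2 ≤ i.val) → φ i ⬝ᵥ v j = 0 := by
    intro i j hij
    rcases hij with h | h
    · exact (hHCM F h2 _ _ _ _ _ _ (hh i) (hh j) (hfar i j h) (hfar0 i j h)).1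
    · exact (hHCM F h2 _ _ _ _ _ _ (hh j) (hh i) (hfar j i h) (hfar0 j i h)).2
  -- adjacent homologies
  have hadj1 : ∀ i j : Fin r, i.val + 1 = j.val → φ i ⬝ᵥ v j ≠ 0 := by
    intro i j hij h0
    have := hsep {k | i.val < k.val} (by
      intro a ha b hb
      simp only [Set.mem_ofPred_eq] at ha hb
      by_cases hab : b.val + 2 ≤ a.val
      · exact hfarφ b a (Or.inl hab)
      · have hb' : b = i := Fin.ext (by omega)
        have ha' : a = j := Fin.ext (by omega)
        rw [hb', ha']; exact h0) j (by simp only [Set.mem_ofPred_eq]; omega) i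
    simp only [Set.mem_ofPred_eq] at this
    omega
  have hadj2 : ∀ i j : Fin r, i.val + 1 = j.val → φ j ⬝ᵥ v i ≠ 0 := by
    intro i j hij h0
    have := hsep {k | k.val ≤ i.val} (by
      intro a ha b hb
      simp only [Set.mem_ofPred_eq] at ha hb
      by_cases hab : a.val + 2 ≤ b.val
      · exact hfarφ b a (Or.inr hab)
      · have hb' : b = j := Fin.ext (by omega)
        have ha' : a = i := Fin.ext (by omega)
        rw [hb', ha']; exact h0) i (by simp only [Set.mem_ofPred_eq]; omega) j
    simp only [Set.mem_ofPred_eq] at this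
    omega
  -- scaling
  obtain ⟨c, hc0, hc⟩ : ∃ c : Fin r → F, (∀ i, c i ≠ 0) ∧
      ∀ i j : Fin r, i.val + 1 = j.val → c i * (φ i ⬝ᵥ v j) = c j * (φ j ⬝ᵥ v i) := by
    classical
    let g : ℕ → F := fun n => if h : n + 1 < r then
      (φ ⟨n, by omega⟩ ⬝ᵥ v ⟨n + 1, h⟩) * (φ ⟨n + 1, h⟩ ⬝ᵥ v ⟨n, by omega⟩)⁻¹ else 1
    have hg : ∀ n, g n ≠ 0 := by
      intro n
      by_cases h : n + 1 < r
      · simp only [g, dif_pos h]
        exact mul_ne_zero (hadj1 _ _ rfl) (inv_ne_zero (hadj2 _ _ rfl))
      · simp only [g, dif_neg h]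
        exact one_ne_zero
    refine ⟨fun i => ∏ n ∈ Finset.range i.val, g n,
      fun i => Finset.prod_ne_zero_iff.2 (fun n _ => hg n), ?_⟩
    intro i j hij
    have hlt : i.val + 1 < r := by have := j.isLt; omega
    obtain rfl : j = ⟨i.val + 1, hlt⟩ := Fin.ext hij.symm
    show (∏ n ∈ Finset.range i.val, g n) * _ = (∏ n ∈ Finset.range (i.val + 1), g n) * _
    rw [Finset.prod_range_succ]
    have e : g i.val = (φ i ⬝ᵥ v ⟨i.val + 1, hlt⟩) * (φ ⟨i.val + 1, hlt⟩ ⬝ᵥ v i)⁻¹ := by
      simp only [g, dif_pos hlt]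
    rw [e]
    have hne := hadj2 i ⟨i.val + 1, hlt⟩ rfl
    field_simp
  have hsym : ∀ i j : Fin r, c i * (φ i ⬝ᵥ v j) = c j * (φ j ⬝ᵥ v i) := by
    intro i j
    by_cases h1 : i.val + 2 ≤ j.val ∨ j.val + 2 ≤ i.val
    · rw [hfarφ i j h1, hfarφ j i (h1.symm), mul_zero, mul_zero]
    · by_cases h2 : i.val + 1 = j.val
      · exact hc i j h2
      · by_cases h3 : j.val + 1 = i.val
        · exact (hc j i h3).symm
        · have : i = j := Fin.ext (by omega)
          rw [this]
  -- the form
  let L : (Fin r → F) →ₗ[F] (Fin 3 → F) := Fintype.linearCombination F v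
  let R : (Fin r → F) →ₗ[F] (Fin 3 → F) := Fintype.linearCombination F (fun i => c i • φ i)
  have hLs : LinearMap.range L = ⊤ := by
    rw [Fintype.range_linearCombination]; exact hspan
  obtain ⟨g, hg⟩ := L.exists_rightInverse_of_surjective hLs
  have hL1 : ∀ a, L a = ∑ i, a i • v i := fun a => Fintype.linearCombination_apply F v a
  have hR1 : ∀ a, R a = ∑ i, a i • (c i • φ i) := fun a => Fintype.linearCombination_apply F _ a
  have hRL : ∀ a j, R a ⬝ᵥ v j = c j * (φ j ⬝ᵥ L a) := by
    intro a j
    rw [hR1, hL1, sum_dotProduct, dotProduct_sum, Finset.mul_sum]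
    apply Finset.sum_congr rfl
    intro i _
    rw [smul_dotProduct, smul_dotProduct, dotProduct_smul, smul_eq_mul, smul_eq_mul, smul_eq_mul,
      hsym i j]
    ring
  have hzero : ∀ z : Fin 3 → F, (∀ j, z ⬝ᵥ v j = 0) → ∀ w, z ⬝ᵥ w = 0 := by
    intro z hz w
    have hw : w ∈ Submodule.span F (Set.range v) := by rw [hspan]; trivial
    induction hw using Submodule.span_induction with
    | mem x h =>
      obtain ⟨j, rfl⟩ := h
      exact hz j
    | zero => simp
    | add x y _ _ hx hy => rw [dotProduct_add, hx, hy, add_zero]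
    | smul a x _ hx => rw [dotProduct_smul, hx, smul_zero]
  let T : (Fin 3 → F) →ₗ[F] (Fin 3 → F) := R.comp g
  have hTv : ∀ u j, T u ⬝ᵥ v j = c j * (φ j ⬝ᵥ u) := by
    intro u j
    have h1 : L (g u) = u := by
      have := LinearMap.congr_fun hg u
      simpa using this
    show R (g u) ⬝ᵥ v j = _
    rw [hRL, h1]
  have hTw : ∀ i w, T (v i) ⬝ᵥ w = c i * (φ i ⬝ᵥ w) := by
    intro i w
    have := hzero (T (v i) - c i • φ i) (by
      intro j
      rw [sub_dotProduct, hTv, smul_dotProduct, smul_eq_mul, hsym i j, sub_self]) w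
    rw [sub_dotProduct, smul_dotProduct, smul_eq_mul] at this
    exact sub_eq_zero.1 this
  have hform := irr_form ρ hs hcon T (by
    intro i u w
    rw [hact, hact, map_sub, map_smul, sub_dotProduct, dotProduct_sub, dotProduct_sub,
      smul_dotProduct, smul_dotProduct, dotProduct_smul, dotProduct_smul, hTw, hTw, hTv, hone]
    simp only [smul_eq_mul]
    ring)
  -- conclusion
  have hr : 0 < r := by
    by_contra hr
    have hr0 : r = 0 := by omega
    subst hr0
    have : Submodule.span F (Set.range v) = ⊥ := by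
      rw [Set.range_eq_empty, Submodule.span_empty]
    rw [hspan] at this
    exact top_ne_bot this
  have h1 := hform (v ⟨0, hr⟩) (v ⟨0, hr⟩)
  rw [hTw, hone, mul_one] at h1
  exact hc0 _ h1

end Pool.Agent.H1.SCG2
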