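import Pool.Agent.H24.SCG2.Base2

/-!
BVZ: strings of homologies do not generate the inner automorphisms.
-/

namespace Pool.Agent.H1.SCG2

open Matrix Pool.SCG

namespace BVZ

theorem three_ne {F : Type} [Field F] [Finite F] (h : OddP F) : (3 : F) ≠ 0 := by
  intro h2
  have h3 : addOrderOf (1 : F) = 3 := by
    apply addOrderOf_eq_prime
    · rw [nsmul_eq_mul, mul_one]
      exact_mod_cast h2
    · exact one_ne_zero
  have h4 := addOrderOf_dvd_natCard (1 : F)
  rw [h3] at h4
  have := h.1
  omega

theorem two_ne {F : Type} [Field F] [Finite F] (h : OddP F) : (2 : F) ≠ 0 := by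
  intro h2
  have h3 : addOrderOf (1 : F) = 2 := by
    apply addOrderOf_eq_prime
    · rw [nsmul_eq_mul, mul_one]
      exact_mod_cast h2
    · exact one_ne_zero
  have h4 := addOrderOf_dvd_natCard (1 : F)
  rw [h3] at h4
  have := h.1
  omega

variable {F : Type} [Field F]

/-- central elements have cube one -/
theorem cent {z : SL3 F} (h : MulAut.conj z = 1) : (∀ g : SL3 F, z * g = g * z) ∧ z ^ 3 = 1 := by
  have h1 : ∀ g : SL3 F, z * g = g * z := by
    intro g
    have := congrArg (fun α : MulAut (SL3 F) => α g) h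
    simp only [MulAut.conj_apply, MulAut.one_apply] at this
    exact mul_inv_eq_iff_eq_mul.1 this
  refine ⟨h1, ?_⟩
  have h2 : z ∈ Subgroup.center (SL3 F) := Subgroup.mem_center_iff.2 (fun g => (h1 g).symm)
  obtain ⟨r, hr, hz⟩ := Matrix.SpecialLinearGroup.mem_center_iff.1 h2
  rw [Fintype.card_fin] at hr
  apply Subtype.ext
  rw [Matrix.SpecialLinearGroup.coe_pow, ← hz, ← map_pow, hr, map_one]
  rfl

theorem conj_eq {a b : SL3 F} (h : MulAut.conj a = MulAut.conj b) :
    ∃ z : SL3 F, a = b * z ∧ (∀ g : SL3 F, z * g = g * z) ∧ z ^ 3 = 1 := by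
  refine ⟨b⁻¹ * a, by group, cent ?_⟩
  rw [map_mul, map_inv, h, inv_mul_cancel]

/-- commuting conjugations with involutions: the involutions commute -/
theorem comm_of {a b : SL3 F} (ha : a * a = 1) (hb : b * b = 1)
    (h : MulAut.conj a * MulAut.conj b = MulAut.conj b * MulAut.conj a) : a * b = b * a := by
  rw [← map_mul, ← map_mul] at h
  obtain ⟨z, hz, hc, h3⟩ := conj_eq h
  have h1 : a * b * a = b * z := by
    rw [hz, mul_assoc, hc a, ← mul_assoc, mul_assoc b a a, ha, mul_one]
  have h2 : z * z = 1 := by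
    have e1 : (a * b * a) * (a * b * a) = 1 := by
      calc (a * b * a) * (a * b * a) = a * b * (a * a) * b * a := by group
        _ = a * (b * b) * a := by rw [ha]; group
        _ = 1 := by rw [hb, mul_one, ha]
    rw [h1] at e1
    calc z * z = (b * b) * (z * z) := by rw [hb, one_mul]
      _ = b * (b * z) * z := by group
      _ = b * (z * b) * z := by rw [hc b]
      _ = (b * z) * (b * z) := by group
      _ = 1 := e1
  have h4 : z = 1 := by
    have : z ^ 3 = z := by rw [pow_succ, pow_two, h2, one_mul]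
    rw [← this, h3]
  rw [hz, h4, mul_one]

theorem inn_one : (inn (1 : SL3 F)) = 1 := rfl

theorem inn_inv (m : SL3 F) : inn m⁻¹ = (inn m)⁻¹ := by
  rw [eq_inv_iff_mul_eq_one, ← inn_mul, inv_mul_cancel, inn_one]

theorem inn_inj {a b : SL3 F} (h : inn a = inn b) : a = b := congrArg Cor.m h

theorem lift {r : ℕ} {ρ : Fin r → MulAut (SL3 F)} {h : Fin r → SL3 F}
    (hρ : ∀ i, ρ i = MulAut.conj (h i)) (α : MulAut (SL3 F))
    (hα : α ∈ Subgroup.closure (Set.range ρ)) :
    ∃ y : SL3 F, inn y ∈ Subgroup.closure (Set.range fun i => inn (h i)) ∧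
      MulAut.conj y = α := by
  induction hα using Subgroup.closure_induction with
  | mem x hx =>
    obtain ⟨i, rfl⟩ := hx
    exact ⟨h i, Subgroup.subset_closure ⟨i, rfl⟩, (hρ i).symm⟩
  | one => exact ⟨1, one_mem _, map_one _⟩
  | mul x y _ _ hx hy =>
    obtain ⟨a, ha, rfl⟩ := hx
    obtain ⟨b, hb, rfl⟩ := hy
    exact ⟨a * b, by rw [inn_mul]; exact mul_mem ha hb, map_mul _ _ _⟩
  | inv x _ hx =>
    obtain ⟨a, ha, rfl⟩ := hx
    exact ⟨a⁻¹, by rw [inn_inv]; exact inv_mem ha, map_inv _ _⟩

/-- inner elements as a homomorphism -/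
def innH : SL3 F →* Cor F where
  toFun := inn
  map_one' := rfl
  map_mul' := inn_mul

/-- the transvections -/
def tv (i j : Fin 3) (hij : i ≠ j) (t : F) : SL3 F :=
  ⟨transvection i j t, det_transvection_of_ne i j hij t⟩

theorem tv_mul (i j : Fin 3) (hij : i ≠ j) (s t : F) :
    tv i j hij s * tv i j hij t = tv i j hij (s + t) := by
  apply Subtype.ext
  rw [Matrix.SpecialLinearGroup.coe_mul]
  exact transvection_mul_transvection_same i j hij s t

end BVZ

open BVZ in
theorem bvz_thm (hBV : BVwStmt) (hGENT : GENTStmt) : BVZStmt := by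
  intro F _ _ hF r ρ hinv hhom hfar hadj
  by_contra hcon
  push Not at hcon
  choose h hh hρ using hhom
  have hne : ∀ i, h i ≠ 1 := by
    intro i hi
    apply (hinv i).1
    rw [hρ i, hi, map_one]
  obtain ⟨m, hm⟩ := hBV F ⟨two_ne hF, trivial⟩ r (fun i => inn (h i))
    (fun i => ⟨fun e => hne i (inn_inj (e.trans inn_one.symm)), by
      rw [← inn_mul, hh i, inn_one]⟩) (fun i => rfl)
    (fun i j hij => by
      rw [← inn_mul, ← inn_mul]
      congr 1
      apply comm_of (hh i) (hh j)
      rw [← hρ i, ← hρ j]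
      exact hfar i j hij)
    (fun i j hij e => by
      apply hadj i j hij
      rw [← inn_mul, ← inn_mul] at e
      rw [hρ i, hρ j, ← map_mul, ← map_mul, inn_inj e])
  apply hm
  have h3 := three_ne hF
  set S : Subgroup (SL3 F) :=
    (Subgroup.closure (Set.range fun i => inn (h i))).comap innH with hS
  have htop : S = ⊤ := by
    apply hGENT
    intro i j hij t
    obtain ⟨y, hy, hyc⟩ := lift hρ _ (hcon (tv i j hij (t / 3)))
    obtain ⟨z, hz, hc, hz3⟩ := conj_eq hyc
    have e : y ^ 3 = tv i j hij t := by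
      have h5 : (tv i j hij (t / 3)) ^ 3 = tv i j hij t := by
        rw [pow_succ, pow_two, tv_mul, tv_mul]
        congr 1
        field_simp
        norm_num
      have h6 : Commute (tv i j hij (t / 3)) z := (hc _).symm
      rw [hz, h6.mul_pow, hz3, mul_one, h5]
    have h7 : y ∈ S := hy
    have h8 := pow_mem h7 3
    rw [e] at h8
    exact h8
  have : m ∈ S := by rw [htop]; trivial
  exact this

end Pool.Agent.H1.SCG2
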