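import Pool.Agent.H24.SCG2.Stmts1
import Pool.Agent.H1.SCG.ZODD

/-!
DK1: the structure of the group in the presence of parabolic elements.
-/

namespace Pool.Agent.H1.SCG2

open Pool.SCG Pool.Agent.H1.SCG

section

variable {K Ω : Type} [Group K] [Fintype K] [MulAction K Ω]

open Classical in
/-- the elements fixing only `x`, and one -/
noncomputable def fU (hZ : Zas K Ω) (x : Ω) : Finset K :=
  Finset.univ.filter (fun g => g ∈ pSub hZ x)

theorem mem_fU {hZ : Zas K Ω} {x : Ω} {g : K} : g ∈ fU hZ x ↔ g ∈ pSub hZ x := by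
  simp [fU]

theorem card_fU (hZ : Zas K Ω) (x : Ω) : (fU hZ x).card = (fB (K := K) x).card + 1 := by
  classical
  rw [← card_pSub hZ x]
  have h1 : ((pSub hZ x : Subgroup K) : Set K) = ((fU hZ x : Finset K) : Set K) := by
    ext g
    rw [Finset.mem_coe, mem_fU]
    rfl
  have h3 : Nat.card (pSub hZ x)
      = Nat.card ((pSub hZ x : Subgroup K) : Set K) := rfl
  rw [h3, h1, Nat.card_eq_card_toFinset, Finset.toFinset_coe]

theorem inj_fU (hZ : Zas K Ω) {x z : Ω} (hzx : z ≠ x) :
    Set.InjOn (fun g : K => g • z) (fU hZ x : Set K) := by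
  intro g hg g' hg' e
  rw [Finset.mem_coe, mem_fU] at hg hg'
  have hm : g'⁻¹ * g ∈ pSub hZ x := (pSub hZ x).mul_mem ((pSub hZ x).inv_mem hg') hg
  have hfix : (g'⁻¹ * g) • z = z := by
    have e' : g • z = g' • z := e
    rw [mul_smul, e', inv_smul_smul]
  rcases hm with h | h
  · rw [inv_mul_eq_one] at h
    exact h.symm
  · exact absurd ((h z).1 hfix) hzx

open Classical in
/-- the orbit of `y` under the elements fixing only `x` -/
noncomputable def ob (hZ : Zas K Ω) (x y : Ω) : Finset Ω := (fU hZ x).image (fun g => g • y)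

theorem card_ob (hZ : Zas K Ω) {x z : Ω} (hzx : z ≠ x) :
    (ob hZ x z).card = (fB (K := K) x).card + 1 := by
  classical
  rw [ob, Finset.card_image_of_injOn (inj_fU hZ hzx), card_fU]

theorem mem_ob {hZ : Zas K Ω} {x y z : Ω} : z ∈ ob hZ x y ↔ ∃ g ∈ pSub hZ x, g • y = z := by
  classical
  simp only [ob, Finset.mem_image, mem_fU]

theorem ob_eq (hZ : Zas K Ω) {x y z : Ω} (h : z ∈ ob hZ x y) : ob hZ x z = ob hZ x y := by
  obtain ⟨g, hg, rfl⟩ := mem_ob.1 h
  ext w
  rw [mem_ob, mem_ob]
  constructor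
  · rintro ⟨k, hk, rfl⟩
    exact ⟨k * g, (pSub hZ x).mul_mem hk hg, mul_smul _ _ _⟩
  · rintro ⟨k, hk, rfl⟩
    exact ⟨k * g⁻¹, (pSub hZ x).mul_mem hk ((pSub hZ x).inv_mem hg), by
      rw [mul_smul, inv_smul_smul]⟩

theorem self_ob (hZ : Zas K Ω) (x y : Ω) : y ∈ ob hZ x y :=
  mem_ob.2 ⟨1, (pSub hZ x).one_mem, one_smul _ _⟩

omit [Fintype K] in
theorem fix_pSub {hZ : Zas K Ω} {x : Ω} {g : K} (hg : g ∈ pSub hZ x) : g • x = x := by
  rcases hg with rfl | h
  · exact one_smul _ _
  · exact par_fix h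

theorem ob_sub (hZ : Zas K Ω) {x y : Ω} [DecidableEq Ω] (hy : y ∈ (fO K x).erase x) :
    ob hZ x y ⊆ (fO K x).erase x := by
  intro z hz
  obtain ⟨g, hg, rfl⟩ := mem_ob.1 hz
  rw [Finset.mem_erase] at hy ⊢
  refine ⟨?_, ?_⟩
  · intro e
    apply hy.1
    have : y = g⁻¹ • x := eq_inv_smul_iff.2 e
    rw [this]
    exact fix_pSub ((pSub hZ x).inv_mem hg)
  · obtain ⟨k, hk⟩ := mem_fO.1 hy.2
    exact mem_fO.2 ⟨g * k, by rw [mul_smul, hk]⟩

theorem dvd_orb (hZ : Zas K Ω) (x : Ω) :
    (fB (K := K) x).card + 1 ∣ (fO K x).card - 1 := by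
  classical
  have h2 : x ∈ fO K x := mem_fO.2 ⟨1, one_smul _ _⟩
  rw [← Finset.card_erase_of_mem h2]
  rw [Finset.card_eq_sum_card_image (ob hZ x)]
  apply Finset.dvd_sum
  intro b hb
  obtain ⟨y, hy, rfl⟩ := Finset.mem_image.1 hb
  have hyx : y ≠ x := (Finset.mem_erase.1 hy).1
  have h3 : ((fO K x).erase x).filter (fun z => ob hZ x z = ob hZ x y) = ob hZ x y := by
    ext z
    rw [Finset.mem_filter]
    constructor
    · rintro ⟨-, h⟩
      rw [← h]
      exact self_ob hZ x z
    · intro h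
      exact ⟨ob_sub hZ hy h, ob_eq hZ h⟩
  rw [h3, card_ob hZ hyx]

theorem numeric {N k o2 e m : ℕ} (hN : 5 ≤ N) (hk : 1 ≤ k) (ho2 : o2 + (1 + k * N) = (1 + k * N) * (N - 1) + 2)
    (hcard : (1 + k * N) * (N * e) = o2 * m) (he : e ≤ N - 1) (he0 : 1 ≤ e) :
    k = 1 ∧ m ∣ N + 1 := by
  obtain ⟨M, rfl⟩ : ∃ M, N = M + 2 := ⟨N - 2, by omega⟩
  have h1 : M + 2 - 1 = M + 1 := by omega
  rw [h1] at ho2 he
  have ho2' : o2 = (M + 2) * (1 + k * M) := by
    have : o2 + (1 + k * (M + 2)) = (M + 2) * (1 + k * M) + (1 + k * (M + 2)) := by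
      rw [ho2]; ring
    omega
  have hDm : (1 + k * (M + 2)) * e = (1 + k * M) * m := by
    apply Nat.eq_of_mul_eq_mul_left (show 0 < M + 2 by omega)
    calc (M + 2) * ((1 + k * (M + 2)) * e) = (1 + k * (M + 2)) * ((M + 2) * e) := by ring
      _ = o2 * m := hcard
      _ = _ := by rw [ho2']; ring
  have hcop : Nat.Coprime (1 + k * M) k := by
    rw [Nat.coprime_comm]
    exact (Nat.coprime_add_mul_left_right k 1 M).2 (Nat.coprime_one_right k)
  have hd : (1 + k * M) ∣ 2 * e := by
    have h2 : (1 + k * M) ∣ k * (2 * e) := by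
      have h3 : (1 + k * M) ∣ (1 + k * M) * e + k * (2 * e) := by
        have : (1 + k * M) * e + k * (2 * e) = (1 + k * (M + 2)) * e := by ring
        rw [this, hDm]
        exact Dvd.intro _ rfl
      exact (Nat.dvd_add_right (Dvd.intro _ rfl)).1 h3
    exact hcop.dvd_of_dvd_mul_left h2
  have hle : 1 + k * M ≤ 2 * e := Nat.le_of_dvd (by omega) hd
  have hk3 : k ≤ 2 := by
    by_contra hcon
    have : 3 * M ≤ k * M := Nat.mul_le_mul_right _ (by omega)
    omega
  obtain ⟨c, hc⟩ := hd
  have hc1 : c ≠ 0 := by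
    rintro rfl
    omega
  have hkc : k = 1 ∨ k = 2 := by omega
  rcases hkc with rfl | rfl
  · refine ⟨rfl, ?_⟩
    have hc3 : c ≤ 2 := by
      by_contra hcon
      have : (1 + 1 * M) * 3 ≤ (1 + 1 * M) * c := Nat.mul_le_mul_left _ (by omega)
      omega
    have hcc : c = 1 ∨ c = 2 := by omega
    rcases hcc with rfl | rfl
    · have he' : 1 + 1 * M = 2 * e := by omega
      rw [he'] at hDm
      have h5 : (1 + 1 * (M + 2)) = 2 * m := by
        apply Nat.eq_of_mul_eq_mul_right (show 0 < e by omega)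
        rw [hDm]; ring
      exact ⟨2, by omega⟩
    · have he' : 1 + 1 * M = e := by omega
      rw [he'] at hDm
      have h5 : (1 + 1 * (M + 2)) = m := by
        apply Nat.eq_of_mul_eq_mul_right (show 0 < e by omega)
        rw [hDm]; ring
      exact ⟨1, by omega⟩
  · exfalso
    have hc3 : c ≤ 1 := by
      by_contra hcon
      have : (1 + 2 * M) * 2 ≤ (1 + 2 * M) * c := Nat.mul_le_mul_left _ (by omega)
      omega
    have : c = 1 := by omega
    rw [this] at hc
    omega

theorem main1 (hZ : Zas K Ω) (hfix : ∀ x : Ω, ∃ g : K, g • x ≠ x) (x0 : Ω)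
    (hB : 4 ≤ (fB (K := K) x0).card) :
    (fO K x0).card = (fB (K := K) x0).card + 2 ∧ ∀ w : Ω, w ∉ fO K x0 →
      (fA (K := K) w).card + 1 ∣ (fB (K := K) x0).card + 2 := by
  classical
  obtain ⟨S, hS, hsum⟩ := count hZ
  have hsub : ∀ x ∈ S, fO K x ⊆ S := by
    intro x hx z hz
    obtain ⟨g, rfl⟩ := mem_fO.1 hz
    rw [hS, card_fA_smul]
    exact (hS x).1 hx
  have hBA : ∀ y : Ω, (fB (K := K) y).card ≤ (fA (K := K) y).card := by
    intro y
    apply Finset.card_le_card
    intro g hg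
    rw [fB, Finset.mem_filter] at hg
    rw [fA, Finset.mem_filter]
    exact ⟨hg.1, hg.2.1, par_fix hg.2.2⟩
  have hKpos : 0 < Nat.card K := Nat.card_pos
  have hyS : x0 ∈ S := by
    rw [hS]
    have := hBA x0
    omega
  have hne1 : (fO K x0).card ≠ 1 := by
    intro h
    obtain ⟨g, hg⟩ := hfix x0
    exact hg (fixed_of_card h g)
  have cy := card_orb (K := K) x0
  have sy := sum_orb (K := K) x0
  have hBA0 := hBA x0
  have small := stab_small hZ (x := x0) (by omega)
  have hdv := dvd_orb hZ x0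
  by_cases hcase : ∀ z ∈ S, z ∈ fO K x0
  · exfalso
    have hSe : S = fO K x0 := Finset.Subset.antisymm hcase (hsub x0 hyS)
    rw [hSe, sy] at hsum
    generalize (fO K x0).card = o at *
    generalize (fA (K := K) x0).card = a at *
    generalize (fB (K := K) x0).card = b at *
    generalize Nat.card K = n at *
    obtain ⟨c, rfl⟩ := Nat.exists_eq_add_of_le hBA0
    have h2 : o * (c + 2) = 2 := by
      have e1 : o * (b + c + b) = 2 * (o * (b + c + 1) - 1) := by rw [cy]; exact hsum
      have e2 : 1 ≤ o * (b + c + 1) := by rw [cy]; exact hKpos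
      zify [e2] at e1 ⊢
      linarith [e1]
    have h3 : 2 ≤ c + 2 := by omega
    have h4 : o ≤ 1 := by
      by_contra hcon
      have : 2 * 2 ≤ o * (c + 2) := Nat.mul_le_mul (by omega) h3
      omega
    have h5 : o ≠ 0 := by
      rintro rfl
      omega
    omega
  push Not at hcase
  obtain ⟨z, hzS, hzy⟩ := hcase
  have cz := card_orb (K := K) z
  have az := (hS z).1 hzS
  have sz := sum_orb (K := K) z
  have hcase2 : ∀ w ∈ S, w ∈ fO K x0 ∨ w ∈ fO K z := by
    by_contra hcase2
    push Not at hcase2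
    obtain ⟨w, hwS, hwy, hwz⟩ := hcase2
    have cw := card_orb (K := K) w
    have aw := (hS w).1 hwS
    have sw := sum_orb (K := K) w
    have hle : ∑ v ∈ ((fO K x0).disjUnion (fO K z) (fO_disj hzy)).disjUnion (fO K w)
        (Finset.disjoint_left.2 (fun v hv hv' => by
          rcases Finset.mem_disjUnion.1 hv with h | h
          · exact Finset.disjoint_left.1 (fO_disj hwy) h hv'
          · exact Finset.disjoint_left.1 (fO_disj hwz) h hv')),
        ((fA (K := K) v).card + (fB (K := K) v).card)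
        ≤ ∑ v ∈ S, ((fA (K := K) v).card + (fB (K := K) v).card) := by
      apply Finset.sum_le_sum_of_subset
      intro v hv
      rcases Finset.mem_disjUnion.1 hv with h | h
      · rcases Finset.mem_disjUnion.1 h with h | h
        · exact hsub x0 hyS h
        · exact hsub z hzS h
      · exact hsub w hwS h
    rw [Finset.sum_disjUnion, Finset.sum_disjUnion, sy, sz, sw, hsum] at hle
    generalize (fO K x0).card = o1 at *
    generalize (fA (K := K) x0).card = a1 at *
    generalize (fB (K := K) x0).card = b1 at *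
    generalize (fO K z).card = o2 at *
    generalize (fA (K := K) z).card = a2 at *
    generalize (fB (K := K) z).card = b2 at *
    generalize (fO K w).card = o3 at *
    generalize (fA (K := K) w).card = a3 at *
    generalize (fB (K := K) w).card = b3 at *
    generalize Nat.card K = n at *
    have i1 : n ≤ o1 * (a1 + b1) := by
      rw [← cy]
      exact Nat.mul_le_mul_left _ (by omega)
    have i2 : n ≤ 2 * (o2 * (a2 + b2)) := by
      rw [← cz]
      calc o2 * (a2 + 1) ≤ o2 * (2 * (a2 + b2)) := Nat.mul_le_mul_left _ (by omega)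
        _ = _ := by ring
    have i3 : n ≤ 2 * (o3 * (a3 + b3)) := by
      rw [← cw]
      calc o3 * (a3 + 1) ≤ o3 * (2 * (a3 + b3)) := Nat.mul_le_mul_left _ (by omega)
        _ = _ := by ring
    omega
  have hSe : S = (fO K x0).disjUnion (fO K z) (fO_disj hzy) := by
    ext w
    rw [Finset.mem_disjUnion]
    constructor
    · exact hcase2 w
    · rintro (h | h)
      · exact hsub x0 hyS h
      · exact hsub z hzS h
  rw [hSe, Finset.sum_disjUnion, sy, sz] at hsum
  -- the stabiliser is a multiple of the unipotent part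
  have hNe : (fB (K := K) x0).card + 1 ∣ (fA (K := K) x0).card + 1 := by
    rw [← card_pSub hZ x0, ← card_stab x0]
    apply Subgroup.card_dvd_of_le
    intro g hg
    exact fix_pSub hg
  have key : (fO K x0).card = (fB (K := K) x0).card + 2 ∧
      (fA (K := K) z).card + 1 ∣ (fB (K := K) x0).card + 2 := by
    obtain ⟨e, he⟩ := hNe
    obtain ⟨k, hk⟩ := hdv
    have opos : 0 < (fO K x0).card := Finset.card_pos.2 ⟨x0, mem_fO.2 ⟨1, one_smul _ _⟩⟩
    have opos2 : 0 < (fO K z).card := Finset.card_pos.2 ⟨z, mem_fO.2 ⟨1, one_smul _ _⟩⟩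
    generalize (fO K x0).card = o1 at *
    generalize (fA (K := K) x0).card = a1 at *
    generalize (fB (K := K) x0).card = b1 at *
    generalize (fO K z).card = o2 at *
    generalize (fA (K := K) z).card = a2 at *
    generalize (fB (K := K) z).card = b2 at *
    generalize Nat.card K = n at *
    have e0 : o1 * b1 + o2 * b2 + 2 = o1 + o2 := by
      have h1 : 1 ≤ n := hKpos
      zify [h1] at hsum cy cz ⊢
      linarith [hsum, cy, cz]
    have hb2 : b2 = 0 := by
      by_contra hb2
      have i1 : o1 * 4 ≤ o1 * b1 := Nat.mul_le_mul_left _ hB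
      have i2 : o2 * 1 ≤ o2 * b2 := Nat.mul_le_mul_left _ (by omega)
      omega
    rw [hb2, mul_zero, add_zero] at e0
    have ho1 : o1 = 1 + k * (b1 + 1) := by
      rw [mul_comm k]
      omega
    have hk0 : 1 ≤ k := by
      by_contra hk0
      have : k = 0 := by omega
      rw [this] at ho1
      omega
    have he1 : e ≤ b1 := by
      rw [he] at small
      exact Nat.le_of_mul_le_mul_left small (by omega)
    have he0 : 1 ≤ e := by
      by_contra hcon
      have : e = 0 := by omega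
      rw [this] at he
      omega
    have hnum := numeric (N := b1 + 1) (k := k) (o2 := o2) (e := e) (m := a2 + 1) (by omega)
      hk0 (by rw [Nat.add_sub_cancel]; rw [← ho1]; omega)
      (by rw [← ho1, ← he, cy, cz]) (by omega) he0
    obtain ⟨hk1, hm⟩ := hnum
    rw [hk1] at ho1
    exact ⟨by omega, hm⟩
  refine ⟨key.1, fun w hw => ?_⟩
  by_cases hwS : w ∈ S
  · rcases hcase2 w hwS with h | h
    · exact absurd h hw
    · obtain ⟨g, rfl⟩ := mem_fO.1 h
      rw [card_fA_smul]
      exact key.2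
  · have : (fA (K := K) w).card = 0 := by
      rw [hS] at hwS
      omega
    rw [this]
    exact one_dvd _

end

theorem dk1_thm : DK1Stmt := by
  intro K Ω _ _ _ hZ hfix x0 u hu hpar hord
  have := Fintype.ofFinite K
  classical
  have hN : 5 ≤ Nat.card (pSub hZ x0) := by
    have h1 : orderOf u ∣ Nat.card (pSub hZ x0) := by
      have : orderOf (⟨u, Or.inr hpar⟩ : pSub hZ x0) = orderOf u := Subgroup.orderOf_mk _ _
      rw [← this]
      exact orderOf_dvd_natCard _
    exact hord.trans (Nat.le_of_dvd Nat.card_pos h1)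
  have hcard := card_pSub hZ x0
  obtain ⟨h1, h2⟩ := main1 hZ hfix x0 (by omega)
  have hcv : Nat.card {v : K // v = 1 ∨ Par v x0} = Nat.card (pSub hZ x0) := rfl
  refine ⟨?_, ?_⟩
  · intro y z hy hyx hz hzx
    have hyT : y ∈ (fO K x0).erase x0 := Finset.mem_erase.2 ⟨hyx, mem_fO.2 hy⟩
    have hzT : z ∈ (fO K x0).erase x0 := Finset.mem_erase.2 ⟨hzx, mem_fO.2 hz⟩
    have hx0 : x0 ∈ fO K x0 := mem_fO.2 ⟨1, one_smul _ _⟩
    have h3 : ob hZ x0 y = (fO K x0).erase x0 := by
      apply Finset.eq_of_subset_of_card_le (ob_sub hZ hyT)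
      rw [card_ob hZ hyx, Finset.card_erase_of_mem hx0, h1]
      omega
    rw [← h3] at hzT
    obtain ⟨g, hg, hgz⟩ := mem_ob.1 hzT
    exact ⟨g, hg, hgz⟩
  · intro w hw
    rw [hcv, hcard, card_stab w]
    exact h2 w (fun h => hw (mem_fO.1 h))

end Pool.Agent.H1.SCG2
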