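import Pool.Agent.H24.SCG2.Stmts3
import Pool.Agent.H82.SCG.EXG

/-!
Generation of `Cor F` by the four generators (module EXGZ of the project SCG2), all fields with
an element `l ≠ 0` with `l ^ 3 ≠ 1`.
-/

namespace Pool.Agent.H1.SCG2

open Pool.SCG Matrix
open Pool.Agent.H82.SCG (torus transv all_inner)

section gen

variable {F : Type} [Field F]


/-- the elementary matrices `E13` -/
theorem elem13 {H : Subgroup (Cor F)} (h2 : (2 : F) ≠ 0) (h3 : (3 : F) ≠ 0)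
    (hl : ∃ l : F, l ≠ 0 ∧ l ^ 3 ≠ 1)
    (hT : ∀ x y : F, x ≠ 0 → y ≠ 0 → Pool.Agent.H82.SCG.InM H (dg x (x * y)⁻¹ y))
    (hd : Pool.Agent.H82.SCG.InM H ((2 * (3 : F)⁻¹) • !![1, 1, 1; 1, 1, 1; 1, 1, 1] - 1))
    (s : F) : Pool.Agent.H82.SCG.InM H !![1, 0, s; 0, 1, 0; 0, 0, 1] := by
  obtain ⟨l, hl0, hl3⟩ := hl
  have hT' : ∀ x y z : F, x ≠ 0 → z ≠ 0 → x * y * z = 1 →
      Pool.Agent.H82.SCG.InM H (dg x y z) := by
    intro x y z hx hz h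
    have := hT x z hx hz
    have e : (x * z)⁻¹ = y := by
      rw [inv_eq_iff_eq_inv]
      apply eq_inv_of_mul_eq_one_left
      linear_combination h
    rwa [e] at this
  set D : M3 F := (2 * (3 : F)⁻¹) • !![1, 1, 1; 1, 1, 1; 1, 1, 1] - 1 with hD
  have eD : D = !![-(3 : F)⁻¹, 2 * 3⁻¹, 2 * 3⁻¹; 2 * 3⁻¹, -(3 : F)⁻¹, 2 * 3⁻¹;
      2 * 3⁻¹, 2 * 3⁻¹, -(3 : F)⁻¹] := by
    rw [hD]
    have e3 : (2 : F) * 3⁻¹ - 1 = -3⁻¹ := by field_simp; ring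
    ext i j
    fin_cases i <;> fin_cases j <;> simp [e3]
  have hg1 : Pool.Agent.H82.SCG.InM H
      !![-(2 * 3⁻¹), 3⁻¹, -(2 * 3⁻¹); 0, -(3 * 2⁻¹), 0; 0, -1, (1 : F)] := by
    have t1 := hT' (-2) (-2⁻¹) 1 (neg_ne_zero.2 h2) one_ne_zero (by field_simp)
    have t2 := hT' (-1) (-1) 1 (by simp) one_ne_zero (by ring)
    have := (((hd.mul t1).mul hd).mul t2).mul hd
    have e : D * dg (-2) (-2⁻¹) 1 * D * dg (-1) (-1) 1 * D =
        !![-(2 * 3⁻¹), 3⁻¹, -(2 * 3⁻¹); 0, -(3 * 2⁻¹), 0; 0, -1, (1 : F)] := by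
      rw [eD]
      simp only [dg, Matrix.mul_fin_three]
      ext i j
      fin_cases i <;> fin_cases j <;> simp <;> field_simp <;> ring
    rwa [e] at this
  have hg2 : Pool.Agent.H82.SCG.InM H
      !![-(3 * 2⁻¹), 3⁻¹, -1; 0, -(2 * 3⁻¹), 0; 0, -(2 * 3⁻¹), (1 : F)] := by
    have t1 := hT' (-2⁻¹) (-2) 1 (neg_ne_zero.2 (inv_ne_zero h2)) one_ne_zero (by field_simp)
    have t2 := hT' (-1) (-1) 1 (by simp) one_ne_zero (by ring)
    have := (((hd.mul t2).mul hd).mul t1).mul hd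
    have e : D * dg (-1) (-1) 1 * D * dg (-2⁻¹) (-2) 1 * D =
        !![-(3 * 2⁻¹), 3⁻¹, -1; 0, -(2 * 3⁻¹), 0; 0, -(2 * 3⁻¹), (1 : F)] := by
      rw [eD]
      simp only [dg, Matrix.mul_fin_three]
      ext i j
      fin_cases i <;> fin_cases j <;> simp <;> field_simp <;> ring
    rwa [e] at this
  have hu0 : (l ^ 3)⁻¹ - 1 ≠ 0 := by
    intro h
    have h' : (l ^ 3)⁻¹ = 1 := by linear_combination h
    rw [inv_eq_one] at h'
    exact hl3 h'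
  set u : F := ((l ^ 3)⁻¹ - 1) * (2 * (3⁻¹ * 3⁻¹)) with hu
  have hu1 : u ≠ 0 := mul_ne_zero hu0 (mul_ne_zero h2 (mul_ne_zero (inv_ne_zero h3)
    (inv_ne_zero h3)))
  have hR : Pool.Agent.H82.SCG.InM H !![1, u, -(3 * u); 0, 1, 0; 0, 0, (1 : F)] := by
    have t1 := hT' ((l ^ 2)⁻¹) l l (inv_ne_zero (pow_ne_zero 2 hl0)) hl0 (by field_simp)
    have t2 := hT' (l ^ 2) l⁻¹ l⁻¹ (pow_ne_zero 2 hl0) (inv_ne_zero hl0) (by field_simp)
    have := ((t1.mul hg1).mul t2).mul hg2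
    have e : dg ((l ^ 2)⁻¹) l l * !![-(2 * 3⁻¹), 3⁻¹, -(2 * 3⁻¹); 0, -(3 * 2⁻¹), 0; 0, -1, (1 : F)] *
        dg (l ^ 2) l⁻¹ l⁻¹ * !![-(3 * 2⁻¹), 3⁻¹, -1; 0, -(2 * 3⁻¹), 0; 0, -(2 * 3⁻¹), (1 : F)] =
        !![1, u, -(3 * u); 0, 1, 0; 0, 0, (1 : F)] := by
      rw [hu]
      simp only [dg, Matrix.mul_fin_three]
      ext i j
      fin_cases i <;> fin_cases j <;> simp <;> field_simp <;> ring
    rwa [e] at this
  have hR2 : ∀ x y : F, x ≠ 0 → y ≠ 0 → Pool.Agent.H82.SCG.InM H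
      !![1, x ^ 2 * y * u, -(3 * u * (x * y⁻¹)); 0, 1, 0; 0, 0, (1 : F)] := by
    intro x y hx hy
    have t1 := hT x y hx hy
    have t2 := hT x⁻¹ y⁻¹ (inv_ne_zero hx) (inv_ne_zero hy)
    have := (t1.mul hR).mul t2
    have e : dg x (x * y)⁻¹ y * !![1, u, -(3 * u); 0, 1, 0; 0, 0, (1 : F)] *
        dg x⁻¹ (x⁻¹ * y⁻¹)⁻¹ y⁻¹ =
        !![1, x ^ 2 * y * u, -(3 * u * (x * y⁻¹)); 0, 1, 0; 0, 0, (1 : F)] := by
      simp only [dg, Matrix.mul_fin_three]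
      ext i j
      fin_cases i <;> fin_cases j <;> simp <;> field_simp
    rwa [e] at this
  have hRi : Pool.Agent.H82.SCG.InM H !![1, -u, 3 * u; 0, 1, 0; 0, 0, (1 : F)] := by
    have t1 := hT' ((l ^ 2)⁻¹) l l (inv_ne_zero (pow_ne_zero 2 hl0)) hl0 (by field_simp)
    have t2 := hT' (l ^ 2) l⁻¹ l⁻¹ (pow_ne_zero 2 hl0) (inv_ne_zero hl0) (by field_simp)
    have := ((hg1.mul t1).mul hg2).mul t2
    have e : !![-(2 * 3⁻¹), 3⁻¹, -(2 * 3⁻¹); 0, -(3 * 2⁻¹), 0; 0, -1, (1 : F)] *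
        dg ((l ^ 2)⁻¹) l l *
        !![-(3 * 2⁻¹), 3⁻¹, -1; 0, -(2 * 3⁻¹), 0; 0, -(2 * 3⁻¹), (1 : F)] *
        dg (l ^ 2) l⁻¹ l⁻¹ = !![1, -u, 3 * u; 0, 1, 0; 0, 0, (1 : F)] := by
      rw [hu]
      simp only [dg, Matrix.mul_fin_three]
      ext i j
      fin_cases i <;> fin_cases j <;> simp <;> field_simp <;> ring
    rwa [e] at this
  have hR3 : ∀ x y : F, x ≠ 0 → y ≠ 0 → Pool.Agent.H82.SCG.InM H
      !![1, -(x ^ 2 * y * u), 3 * u * (x * y⁻¹); 0, 1, 0; 0, 0, (1 : F)] := by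
    intro x y hx hy
    have t1 := hT x y hx hy
    have t2 := hT x⁻¹ y⁻¹ (inv_ne_zero hx) (inv_ne_zero hy)
    have := (t1.mul hRi).mul t2
    have e : dg x (x * y)⁻¹ y * !![1, -u, 3 * u; 0, 1, 0; 0, 0, (1 : F)] *
        dg x⁻¹ (x⁻¹ * y⁻¹)⁻¹ y⁻¹ =
        !![1, -(x ^ 2 * y * u), 3 * u * (x * y⁻¹); 0, 1, 0; 0, 0, (1 : F)] := by
      simp only [dg, Matrix.mul_fin_three]
      ext i j
      fin_cases i <;> fin_cases j <;> simp <;> field_simp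
    rwa [e] at this
  have hl1 : l ^ 3 - 1 ≠ 0 := sub_ne_zero.2 hl3
  by_cases hs : s = 0
  · subst hs
    have e : (!![1, 0, 0; 0, 1, 0; 0, 0, 1] : M3 F) = 1 := by
      ext i j
      fin_cases i <;> fin_cases j <;> simp
    rw [e]; exact Pool.Agent.H82.SCG.InM.one
  · -- `n = s / (-3 (l^3 - 1) u)`
    set n : F := s * (3 * (l ^ 3 - 1) * u)⁻¹ with hn
    have h3lu : 3 * (l ^ 3 - 1) * u ≠ 0 := mul_ne_zero (mul_ne_zero h3 hl1) hu1
    have hn0 : n ≠ 0 := mul_ne_zero hs (inv_ne_zero h3lu)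
    have hns : n * (3 * (l ^ 3 - 1) * u) = s := by
      rw [hn, mul_assoc, inv_mul_cancel₀ h3lu, mul_one]
    have A1 := hR3 l ((l ^ 2 * n)⁻¹) hl0 (inv_ne_zero (mul_ne_zero (pow_ne_zero 2 hl0) hn0))
    have A2 := hR2 1 n⁻¹ one_ne_zero (inv_ne_zero hn0)
    have := A1.mul A2
    have e : (!![1, -(l ^ 2 * (l ^ 2 * n)⁻¹ * u), 3 * u * (l * ((l ^ 2 * n)⁻¹)⁻¹); 0, 1, 0;
        0, 0, (1 : F)] : M3 F) *
        !![1, 1 ^ 2 * n⁻¹ * u, -(3 * u * (1 * (n⁻¹)⁻¹)); 0, 1, 0; 0, 0, (1 : F)] =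
        !![1, 0, s; 0, 1, 0; 0, 0, 1] := by
      have e1 : l ^ 2 * (l ^ 2 * n)⁻¹ = n⁻¹ := by field_simp
      rw [e1, ← hns]
      simp only [Matrix.mul_fin_three]
      ext i j
      fin_cases i <;> fin_cases j <;> simp
      ring
    rwa [e] at this

theorem lastcol {H : Subgroup (Cor F)}
    (hp : Pool.Agent.H82.SCG.InM H !![0, -1, 0; -1, 0, 0; 0, 0, -1])
    (h13 : ∀ x : F, Pool.Agent.H82.SCG.InM H !![1, 0, x; 0, 1, 0; 0, 0, 1])
    (u v : F) (_ : u ≠ 0) (_ : v ≠ 0) :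
    Pool.Agent.H82.SCG.InM H !![1, 0, u; 0, 1, v; 0, 0, 1] := by
  have := (h13 u).mul ((hp.mul (h13 v)).mul hp)
  have e : (!![1, 0, u; 0, 1, 0; 0, 0, 1] : M3 F) *
      (!![0, -1, 0; -1, 0, 0; 0, 0, -1] * !![1, 0, v; 0, 1, 0; 0, 0, 1] *
      !![0, -1, 0; -1, 0, 0; 0, 0, -1]) = !![1, 0, u; 0, 1, v; 0, 0, 1] := by
    simp only [Matrix.mul_fin_three]
    ext i j
    fin_cases i <;> fin_cases j <;> simp
  rwa [e] at this

end gen

theorem exgz_thm : Pool.SCG.EXGZStmt := by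
  intro F _ _ τ h20 h3 hτ0 hl hτ a b c d hg
  set H : Subgroup (Cor F) := Subgroup.closure ({a, b, c, d} : Set (Cor F)) with hH
  have ha : a ∈ H := Subgroup.subset_closure (by simp)
  have hb : b ∈ H := Subgroup.subset_closure (by simp)
  have hc : c ∈ H := Subgroup.subset_closure (by simp)
  have hd : d ∈ H := Subgroup.subset_closure (by simp)
  have hq : Pool.Agent.H82.SCG.InM H !![0, 0, -1; 0, -1, 0; -1, 0, 0] := ⟨b, hb, hg.hb⟩
  have hcM : Pool.Agent.H82.SCG.InM H !![0, -τ⁻¹, 0; -τ, 0, 0; 0, 0, -1] := ⟨c, hc, hg.hc⟩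
  have hdM : Pool.Agent.H82.SCG.InM H ((2 * (3 : F)⁻¹) • !![1, 1, 1; 1, 1, 1; 1, 1, 1] - 1) := ⟨d, hd, hg.hd⟩
  -- the cyclic permutation, outer
  have h1 : Is (a * b) true !![0, 1, 0; 0, 0, 1; 1, 0, 0] := by
    have := hg.ha.mul_inner hg.hb
    have e : (!![0, -1, 0; -1, 0, 0; 0, 0, -1] : M3 F) * !![0, 0, -1; 0, -1, 0; -1, 0, 0] =
        !![0, 1, 0; 0, 0, 1; 1, 0, 0] := by
      simp only [Matrix.mul_fin_three]
      ext i j
      fin_cases i <;> fin_cases j <;> simp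
    rwa [e] at this
  have h2 : Is (a * b * (a * b)) false !![0, 0, 1; 1, 0, 0; 0, 1, 0] := by
    have h : (!![0, 1, 0; 0, 0, 1; 1, 0, 0] : M3 F) * !![0, 0, 1; 1, 0, 0; 0, 1, 0] = 1 := by
      simp only [Matrix.mul_fin_three]
      ext i j
      fin_cases i <;> fin_cases j <;> simp
    have := h1.mul_outer' h1 h
    have e : (!![0, 0, 1; 1, 0, 0; 0, 1, 0] : M3 F).transpose * !![0, 1, 0; 0, 0, 1; 1, 0, 0] =
        !![0, 0, 1; 1, 0, 0; 0, 1, 0] := by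
      ext i j
      fin_cases i <;> fin_cases j <;> simp [Matrix.mul_apply, Fin.sum_univ_three]
    rw [e] at this
    simpa using this
  have h3' : Is (a * b * (a * b) * (a * b)) true (1 : M3 F) := by
    have h : (!![0, 0, 1; 1, 0, 0; 0, 1, 0] : M3 F) * !![0, 1, 0; 0, 0, 1; 1, 0, 0] = 1 := by
      simp only [Matrix.mul_fin_three]
      ext i j
      fin_cases i <;> fin_cases j <;> simp
    have := h2.mul_outer' h1 h
    have e : (!![0, 1, 0; 0, 0, 1; 1, 0, 0] : M3 F).transpose * !![0, 1, 0; 0, 0, 1; 1, 0, 0] =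
        1 := by
      ext i j
      fin_cases i <;> fin_cases j <;> simp [Matrix.mul_apply, Fin.sum_univ_three]
    rw [e] at this
    simpa using this
  have hab : a * b ∈ H := H.mul_mem ha hb
  have hθ : a * b * (a * b) * (a * b) ∈ H := H.mul_mem (H.mul_mem hab hab) hab
  have hp : Pool.Agent.H82.SCG.InM H !![0, -1, 0; -1, 0, 0; 0, 0, -1] := by
    refine ⟨a * (a * b * (a * b) * (a * b)), H.mul_mem ha hθ, ?_⟩
    have h : (!![0, -1, 0; -1, 0, 0; 0, 0, -1] : M3 F) * !![0, -1, 0; -1, 0, 0; 0, 0, -1] = 1 := by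
      simp only [Matrix.mul_fin_three]
      ext i j
      fin_cases i <;> fin_cases j <;> simp
    have := hg.ha.mul_outer' h3' h
    have e : (!![0, -1, 0; -1, 0, 0; 0, 0, -1] : M3 F).transpose * 1 =
        !![0, -1, 0; -1, 0, 0; 0, 0, -1] := by
      rw [mul_one]
      ext i j
      fin_cases i <;> fin_cases j <;> simp
    rw [e] at this
    simpa using this
  have ht : Pool.Agent.H82.SCG.InM H (dg τ τ⁻¹ 1) := by
    have := hp.mul hcM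
    have e : (!![0, -1, 0; -1, 0, 0; 0, 0, -1] : M3 F) * !![0, -τ⁻¹, 0; -τ, 0, 0; 0, 0, -1] =
        dg τ τ⁻¹ 1 := by
      simp only [dg, Matrix.mul_fin_three]
      ext i j
      fin_cases i <;> fin_cases j <;> simp
    rwa [e] at this
  have hT := torus τ hτ hq ht
  have h13 := elem13 h20 h3 hl hT hdM
  have hU := lastcol hp h13
  have hE := transv h20 hp hq hU
  have hin : ∀ x : Cor F, x.s = false → x ∈ H := by
    intro x hx
    obtain ⟨y, hy, hyx⟩ := all_inner hT hE (x.m : M3 F) x.m.2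
    have : x = y := Is.ext ⟨hx, rfl⟩ hyx
    rw [this]; exact hy
  rw [eq_top_iff]
  intro x _
  by_cases hx : x.s = false
  · exact hin x hx
  · have hx' : x.s = true := by simpa using hx
    have h4 : a * x ∈ H := by
      apply hin
      rw [Cor.mul_s, hg.ha.1, hx']
      rfl
    have h5 : x = a⁻¹ * (a * x) := by group
    rw [h5]
    exact H.mul_mem (H.inv_mem ha) h4

end Pool.Agent.H1.SCG2
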