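import Pool.Agent.H24.SCG2.Stmts4

/-!
A subgroup of `GL(2,F)` with a full torus (module FTL of the project SCG2).
-/

namespace Pool.Agent.H1.SCG2

open Pool.SCG Matrix

namespace FTL

variable {F : Type} [Field F]

/-- the matrix `A` is up to a scalar in `X` -/
def InX (X : Subgroup (GL (Fin 2) F)) (A : M2 F) : Prop :=
  ∃ g ∈ X, ∃ c : F, c ≠ 0 ∧ (g : M2 F) = c • A

theorem InX.mul {X : Subgroup (GL (Fin 2) F)} {A B : M2 F} (hA : InX X A) (hB : InX X B) :
    InX X (A * B) := by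
  obtain ⟨g, hg, c, hc, e⟩ := hA
  obtain ⟨h, hh, d, hd, e'⟩ := hB
  refine ⟨g * h, X.mul_mem hg hh, c * d, mul_ne_zero hc hd, ?_⟩
  rw [Units.val_mul, e, e', Matrix.smul_mul, Matrix.mul_smul, smul_smul]

theorem InX.scal {X : Subgroup (GL (Fin 2) F)} {A B : M2 F} (hA : InX X A) (k : F) (hk : k ≠ 0)
    (e : A = k • B) : InX X B := by
  obtain ⟨g, hg, c, hc, e'⟩ := hA
  exact ⟨g, hg, c * k, mul_ne_zero hc hk, by rw [e', e, smul_smul]⟩

theorem InX.det {X : Subgroup (GL (Fin 2) F)} {A : M2 F} (hA : InX X A) : A.det ≠ 0 := by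
  obtain ⟨g, hg, c, hc, e⟩ := hA
  intro h
  have h1 : (g : M2 F).det ≠ 0 := by
    have := (Matrix.isUnit_iff_isUnit_det (g : M2 F)).1 g.isUnit
    exact this.ne_zero
  apply h1
  rw [e, Matrix.det_smul, h, mul_zero]

theorem InX.diag {X : Subgroup (GL (Fin 2) F)}
    (hT : ∀ l : F, l ≠ 0 → InX X !![l, 0; 0, 1]) (x y : F) (hx : x ≠ 0) (hy : y ≠ 0) :
    InX X !![x, 0; 0, y] := by
  refine (hT (x * y⁻¹) (mul_ne_zero hx (inv_ne_zero hy))).scal y⁻¹ (inv_ne_zero hy) ?_
  ext i j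
  fin_cases i <;> fin_cases j <;> simp [hy, mul_comm]

theorem InX.one {X : Subgroup (GL (Fin 2) F)} : InX X (1 : M2 F) :=
  ⟨1, X.one_mem, 1, one_ne_zero, by simp⟩

/-- upper triangular elements are enough -/
theorem upper {X : Subgroup (GL (Fin 2) F)}
    (hT : ∀ l : F, l ≠ 0 → InX X !![l, 0; 0, 1]) (a b d : F) (hb : b ≠ 0)
    (h : InX X !![a, b; 0, d]) (u : F) : InX X !![1, u; 0, 1] := by
  have hdet := h.det
  rw [Matrix.det_fin_two_of] at hdet
  have ha : a ≠ 0 := by rintro rfl; simp at hdet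
  have hd : d ≠ 0 := by rintro rfl; simp at hdet
  by_cases hu : u = 0
  · subst hu
    have e : (!![1, 0; 0, 1] : M2 F) = 1 := by
      ext i j
      fin_cases i <;> fin_cases j <;> simp
    rw [e]; exact InX.one
  · have h1 := (InX.diag hT (u * (a * b⁻¹) * a⁻¹) d⁻¹
      (mul_ne_zero (mul_ne_zero hu (mul_ne_zero ha (inv_ne_zero hb))) (inv_ne_zero ha))
      (inv_ne_zero hd)).mul h
    have h2 := h1.mul (InX.diag hT (u * (a * b⁻¹))⁻¹ 1
      (inv_ne_zero (mul_ne_zero hu (mul_ne_zero ha (inv_ne_zero hb)))) one_ne_zero)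
    have e : (!![u * (a * b⁻¹) * a⁻¹, 0; 0, d⁻¹] : M2 F) * !![a, b; 0, d] *
        !![(u * (a * b⁻¹))⁻¹, 0; 0, 1] = !![1, u; 0, 1] := by
      ext i j
      fin_cases i <;> fin_cases j <;> simp [Matrix.mul_apply, Fin.sum_univ_two] <;> field_simp
    rwa [e] at h2

theorem normal {X : Subgroup (GL (Fin 2) F)}
    (hT : ∀ l : F, l ≠ 0 → InX X !![l, 0; 0, 1]) (a b c d : F) (ha : a ≠ 0) (hc : c ≠ 0)
    (hd : d ≠ 0) (h : InX X !![a, b; c, d]) : InX X !![1, b * c * (a * d)⁻¹; 1, 1] := by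
  have h1 := ((InX.diag hT (c * a⁻¹) 1 (mul_ne_zero hc (inv_ne_zero ha)) one_ne_zero).mul h).mul
    (InX.diag hT c⁻¹ d⁻¹ (inv_ne_zero hc) (inv_ne_zero hd))
  have e : (!![c * a⁻¹, 0; 0, 1] : M2 F) * !![a, b; c, d] * !![c⁻¹, 0; 0, d⁻¹] =
      !![1, b * c * (a * d)⁻¹; 1, 1] := by
    ext i j
    fin_cases i <;> fin_cases j <;> simp [Matrix.mul_apply, Fin.sum_univ_two] <;> field_simp
  rwa [e] at h1

/-- the generic case -/
theorem gen1 {X : Subgroup (GL (Fin 2) F)} {β : F}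
    (hT : ∀ l : F, l ≠ 0 → InX X !![l, 0; 0, 1]) (hJ : InX X !![0, β; 1, 0]) (x : F)
    (hx0 : x ≠ 0) (hx2 : x ^ 2 ≠ 1)
    (h : InX X !![1, x; 1, 1]) (u : F) : InX X !![1, u; 0, 1] := by
  have hβ : β ≠ 0 := by
    have := hJ.det
    rw [Matrix.det_fin_two_of] at this
    rintro rfl; simp at this
  have h1 := hJ.mul ((h.mul (hT (-x) (neg_ne_zero.2 hx0))).mul h)
  have e : (!![0, β; 1, 0] : M2 F) * (!![1, x; 1, 1] * !![-x, 0; 0, 1] * !![1, x; 1, 1]) =
      !![β * (1 - x), β * (1 - x ^ 2); 0, x - x ^ 2] := by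
    simp only [Matrix.mul_fin_two]
    congr 1
    ext i j
    fin_cases i <;> fin_cases j <;> simp only [Matrix.cons_val', Matrix.cons_val_zero,
      Matrix.cons_val_one, Matrix.cons_val_fin_one, Fin.zero_eta, Fin.mk_one] <;> ring
  rw [e] at h1
  exact upper hT _ _ _ (mul_ne_zero hβ (sub_ne_zero.2 (Ne.symm hx2))) h1 u

end FTL

open FTL in
theorem ftl_thm : FTLStmt := by
  intro F _ h2 hl X x1 g0 β c0 hT hx1 hc0 ex1 hg0 ha hc u
  have hT' : ∀ l : F, l ≠ 0 → InX X !![l, 0; 0, 1] := hT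
  have hJ : InX X !![0, β; 1, 0] := ⟨x1, hx1, c0, hc0, ex1⟩
  have hβ : β ≠ 0 := by
    have := hJ.det
    rw [Matrix.det_fin_two_of] at this
    rintro rfl; simp at this
  change InX X !![1, u; 0, 1]
  obtain ⟨a, hae⟩ : ∃ a, a = (g0 : M2 F) 0 0 := ⟨_, rfl⟩
  obtain ⟨b, hbe⟩ : ∃ a, a = (g0 : M2 F) 0 1 := ⟨_, rfl⟩
  obtain ⟨c, hce⟩ : ∃ a, a = (g0 : M2 F) 1 0 := ⟨_, rfl⟩
  obtain ⟨d, hde⟩ : ∃ a, a = (g0 : M2 F) 1 1 := ⟨_, rfl⟩
  have hG : InX X !![a, b; c, d] := by
    refine ⟨g0, hg0, 1, one_ne_zero, ?_⟩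
    rw [one_smul, hae, hbe, hce, hde]
    exact Matrix.eta_fin_two _
  rw [← hae] at ha
  rw [← hce] at hc
  have hdet := hG.det
  rw [Matrix.det_fin_two_of] at hdet
  by_cases hd : d = 0
  · -- `x1 * g0` is lower triangular
    subst hd
    have hb : b ≠ 0 := by rintro rfl; simp at hdet
    have h1 := ((hJ.mul (hJ.mul hG)).mul hJ)
    have e : (!![0, β; 1, 0] : M2 F) * (!![0, β; 1, 0] * !![a, b; c, 0]) * !![0, β; 1, 0] =
        !![β * b, β ^ 2 * a; 0, β ^ 2 * c] := by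
      ext i j
      fin_cases i <;> fin_cases j <;> simp [Matrix.mul_apply, Fin.sum_univ_two] <;> ring
    rw [e] at h1
    exact upper hT' _ _ _ (mul_ne_zero (pow_ne_zero 2 hβ) ha) h1 u
  · by_cases hb : b = 0
    · subst hb
      have h1 := (hJ.mul hG).mul hJ
      have e : (!![0, β; 1, 0] : M2 F) * !![a, 0; c, d] * !![0, β; 1, 0] =
          !![β * d, β ^ 2 * c; 0, β * a] := by
        ext i j
        fin_cases i <;> fin_cases j <;> simp [Matrix.mul_apply, Fin.sum_univ_two] <;> ring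
      rw [e] at h1
      exact upper hT' _ _ _ (mul_ne_zero (pow_ne_zero 2 hβ) hc) h1 u
    · have h1 := normal hT' a b c d ha hc hd hG
      set x : F := b * c * (a * d)⁻¹ with hx
      have hx0 : x ≠ 0 := mul_ne_zero (mul_ne_zero hb hc) (inv_ne_zero (mul_ne_zero ha hd))
      have hx1' : x ≠ 1 := by
        have := h1.det
        rw [Matrix.det_fin_two_of] at this
        intro h
        apply this
        rw [h]; ring
      by_cases hx2 : x ^ 2 = 1
      · have hxm : x = -1 := by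
          have : (x - 1) * (x + 1) = 0 := by linear_combination hx2
          rcases mul_eq_zero.1 this with h | h
          · exact absurd (sub_eq_zero.1 h) hx1'
          · exact eq_neg_of_add_eq_zero_left h
        rw [hxm] at h1
        obtain ⟨l, hl0, hl1, hl2⟩ := hl
        have h3 := (h1.mul (hT' l hl0)).mul h1
        have e : (!![1, -1; 1, 1] : M2 F) * !![l, 0; 0, 1] * !![1, -1; 1, 1] =
            !![l - 1, -(l + 1); l + 1, 1 - l] := by
          ext i j
          fin_cases i <;> fin_cases j <;> simp [Matrix.mul_apply, Fin.sum_univ_two] <;> ring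
        rw [e] at h3
        have hlm : l - 1 ≠ 0 := by
          intro h
          apply hl1
          rw [sub_eq_zero.1 h]; ring
        have hlp : l + 1 ≠ 0 := by
          intro h
          apply hl1
          rw [eq_neg_of_add_eq_zero_left h]; ring
        have hlm' : 1 - l ≠ 0 := by
          intro h
          apply hlm
          linear_combination -h
        have h4 := normal hT' _ _ _ _ hlm hlp hlm' h3
        have e2 : -(l + 1) * (l + 1) * ((l - 1) * (1 - l))⁻¹ = (l + 1) ^ 2 * ((l - 1) ^ 2)⁻¹ := by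
          have : (l - 1) * (1 - l) = -(l - 1) ^ 2 := by ring
          rw [this, inv_neg]; ring
        rw [e2] at h4
        have hy0 : (l + 1) ^ 2 * ((l - 1) ^ 2)⁻¹ ≠ 0 :=
          mul_ne_zero (pow_ne_zero 2 hlp) (inv_ne_zero (pow_ne_zero 2 hlm))
        refine gen1 hT' hJ _ hy0 ?_ h4 u
        intro h5
        have h6 : ((l + 1) ^ 2 * ((l - 1) ^ 2)⁻¹ - 1) * ((l + 1) ^ 2 * ((l - 1) ^ 2)⁻¹ + 1) = 0 := by
          linear_combination h5
        rcases mul_eq_zero.1 h6 with h | h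
        · have h7 : (l + 1) ^ 2 = (l - 1) ^ 2 := by
            have := sub_eq_zero.1 h
            field_simp at this
            exact this
          have h8 : 2 * (2 * l) = 0 := by linear_combination h7
          exact (mul_ne_zero h2 (mul_ne_zero h2 hl0)) h8
        · apply hl2
          have := eq_neg_of_add_eq_zero_left h
          field_simp at this
          exact this
      · exact gen1 hT' hJ x hx0 hx2 h1 u

end Pool.Agent.H1.SCG2
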