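import Pool.Agent.H24.SCG2.Base2

/-!
GPA: the group generated by a string with a polarity.
-/

namespace Pool.Agent.H1.SCG2

open Matrix Pool.SCG

namespace GPA

variable {F : Type} [Field F]

theorem diag_coe (P : GL (Fin 3) F) (g : SL3 F) :
    ((diagAut P g : SL3 F) : M3 F) = P.1 * g.1 * (P⁻¹).1 := rfl

theorem diag_mul (P Q : GL (Fin 3) F) : diagAut (P * Q) = diagAut P * diagAut Q := by
  ext g : 1
  apply Subtype.ext
  rw [MulAut.mul_apply, diag_coe, diag_coe, diag_coe, _root_.mul_inv_rev, Units.val_mul,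
    Units.val_mul]
  simp only [mul_assoc]

theorem diag_one : diagAut (1 : GL (Fin 3) F) = 1 := by
  ext g : 1
  apply Subtype.ext
  rw [diag_coe]
  simp

theorem diag_inv (P : GL (Fin 3) F) : diagAut P⁻¹ = (diagAut P)⁻¹ := by
  rw [eq_inv_iff_mul_eq_one, ← diag_mul, inv_mul_cancel, diag_one]

theorem diag_pow (P : GL (Fin 3) F) (n : ℕ) : diagAut (P ^ n) = diagAut P ^ n := by
  induction n with
  | zero => simp [diag_one]
  | succ n ih => rw [pow_succ, pow_succ, diag_mul, ih]

theorem graph_sq : graphAut F * graphAut F = 1 := by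
  ext g : 1
  exact it_it g

/-- a diagonal automorphism whose determinant is a cube is inner -/
theorem diag_cube (P : GL (Fin 3) F) (c : F) (h : (P : M3 F).det = c ^ 3) :
    ∃ m : SL3 F, diagAut P = MulAut.conj m := by
  have hP : (P : M3 F).det ≠ 0 := by
    have := (Matrix.isUnit_iff_isUnit_det _).1 P.isUnit
    exact this.ne_zero
  have hc : c ≠ 0 := by
    rintro rfl
    apply hP
    rw [h]; simp
  have hdet : (c⁻¹ • (P : M3 F)).det = 1 := by
    rw [Matrix.det_smul, h, Fintype.card_fin, inv_pow, inv_mul_cancel₀ (pow_ne_zero 3 hc)]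
  refine ⟨⟨c⁻¹ • (P : M3 F), hdet⟩, ?_⟩
  ext g : 1
  rw [MulAut.conj_apply, eq_mul_inv_iff_mul_eq]
  apply Subtype.ext
  rw [Matrix.SpecialLinearGroup.coe_mul, diag_coe, Matrix.SpecialLinearGroup.coe_mul]
  show (P : M3 F) * g.1 * (P⁻¹).1 * (c⁻¹ • (P : M3 F)) = (c⁻¹ • (P : M3 F)) * g.1
  have h1 : (P⁻¹).1 * (P : M3 F) = 1 := by rw [← Units.val_mul, inv_mul_cancel, Units.val_one]
  rw [Matrix.mul_smul, mul_assoc, h1, mul_one, Matrix.smul_mul]

/-- inner automorphisms are diagonal -/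
theorem conj_diag (m : SL3 F) : ∃ P : GL (Fin 3) F, MulAut.conj m = diagAut P := by
  refine ⟨⟨(m : M3 F), ((m⁻¹ : SL3 F) : M3 F), ?_, ?_⟩, ?_⟩
  · rw [← Matrix.SpecialLinearGroup.coe_mul, mul_inv_cancel, Matrix.SpecialLinearGroup.coe_one]
  · rw [← Matrix.SpecialLinearGroup.coe_mul, inv_mul_cancel, Matrix.SpecialLinearGroup.coe_one]
  · ext g : 1
    rw [MulAut.conj_apply]
    rfl

/-- a symmetric diagonal automorphism and the graph automorphism -/
theorem diag_graph (P : GL (Fin 3) F) (h : (P : M3 F).transpose = (P : M3 F)) :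
    diagAut P * graphAut F = graphAut F * diagAut P⁻¹ := by
  have hi : ((P⁻¹ : GL (Fin 3) F) : M3 F).transpose = ((P⁻¹ : GL (Fin 3) F) : M3 F) := by
    have h1 : (P : M3 F) * ((P⁻¹ : GL (Fin 3) F) : M3 F) = 1 := by
      rw [← Units.val_mul, mul_inv_cancel, Units.val_one]
    have h2 : ((P⁻¹ : GL (Fin 3) F) : M3 F).transpose * (P : M3 F) = 1 := by
      have := congrArg Matrix.transpose h1
      rwa [Matrix.transpose_mul, h, Matrix.transpose_one] at this
    calc ((P⁻¹ : GL (Fin 3) F) : M3 F).transpose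
        = ((P⁻¹ : GL (Fin 3) F) : M3 F).transpose * ((P : M3 F) *
          ((P⁻¹ : GL (Fin 3) F) : M3 F)) := by rw [h1, mul_one]
      _ = ((P⁻¹ : GL (Fin 3) F) : M3 F) := by rw [← mul_assoc, h2, one_mul]
  ext g : 1
  rw [MulAut.mul_apply, MulAut.mul_apply]
  show diagAut P (it g) = it (diagAut P⁻¹ g)
  have h3 : it (diagAut P⁻¹ g) = ((diagAut P⁻¹ g⁻¹)).transpose := by
    rw [map_inv]
    rfl
  rw [h3]
  apply Subtype.ext
  rw [diag_coe, Matrix.SpecialLinearGroup.coe_transpose, diag_coe, inv_inv,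
    Matrix.transpose_mul, Matrix.transpose_mul, h, hi, mul_assoc]
  rfl

/-- classes modulo cubes -/
theorem cube_class [Finite F] {x y : F} (hx : x ≠ 0) (hy : y ≠ 0) (h : ¬ ∃ c : F, x = c ^ 3) :
    ∃ (k : ℕ) (c : F), y = x ^ k * c ^ 3 := by
  obtain ⟨g, hg⟩ := IsCyclic.exists_generator (α := Fˣ)
  obtain ⟨a, ha⟩ := Subgroup.mem_zpowers_iff.1 (hg (Units.mk0 x hx))
  obtain ⟨b, hb⟩ := Subgroup.mem_zpowers_iff.1 (hg (Units.mk0 y hy))
  have ha3 : a % 3 ≠ 0 := by
    intro h0
    apply h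
    obtain ⟨j, hj⟩ := Int.dvd_of_emod_eq_zero h0
    refine ⟨((g ^ j : Fˣ) : F), ?_⟩
    have h1 : (g ^ j) ^ 3 = Units.mk0 x hx := by
      rw [← ha, hj, mul_comm, _root_.zpow_mul]
      rfl
    have := congrArg (fun u : Fˣ => (u : F)) h1
    simpa using this.symm
  have hkj : ∃ (k : ℕ) (j : ℤ), b = a * k + 3 * j := by
    have hm : a % 3 = 1 ∨ a % 3 = 2 := by omega
    have hb3 : b % 3 = 0 ∨ b % 3 = 1 ∨ b % 3 = 2 := by omega
    rcases hm with hm | hm <;> rcases hb3 with hb3 | hb3 | hb3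
    · exact ⟨0, (b - a * ((0 : ℕ) : ℤ)) / 3, by push_cast; omega⟩
    · exact ⟨1, (b - a * ((1 : ℕ) : ℤ)) / 3, by push_cast; omega⟩
    · exact ⟨2, (b - a * ((2 : ℕ) : ℤ)) / 3, by push_cast; omega⟩
    · exact ⟨0, (b - a * ((0 : ℕ) : ℤ)) / 3, by push_cast; omega⟩
    · exact ⟨2, (b - a * ((2 : ℕ) : ℤ)) / 3, by push_cast; omega⟩
    · exact ⟨1, (b - a * ((1 : ℕ) : ℤ)) / 3, by push_cast; omega⟩
  obtain ⟨k, j, hkj⟩ := hkj
  refine ⟨k, ((g ^ j : Fˣ) : F), ?_⟩
  have h1 : Units.mk0 y hy = (Units.mk0 x hx) ^ k * (g ^ j) ^ 3 := by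
    rw [← ha, ← hb, hkj, _root_.zpow_add, _root_.zpow_mul, mul_comm 3 j, _root_.zpow_mul]
    rfl
  have := congrArg (fun u : Fˣ => (u : F)) h1
  simpa using this

theorem det_ne (P : GL (Fin 3) F) : (P : M3 F).det ≠ 0 :=
  ((Matrix.isUnit_iff_isUnit_det _).1 P.isUnit).ne_zero

theorem det_inv (P : GL (Fin 3) F) : ((P⁻¹ : GL (Fin 3) F) : M3 F).det = ((P : M3 F).det)⁻¹ := by
  have h1 : (P : M3 F) * ((P⁻¹ : GL (Fin 3) F) : M3 F) = 1 := by
    rw [← Units.val_mul, mul_inv_cancel, Units.val_one]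
  have h2 := congrArg Matrix.det h1
  rw [Matrix.det_mul, Matrix.det_one] at h2
  exact eq_inv_of_mul_eq_one_right h2

theorem det_mul' (P Q : GL (Fin 3) F) :
    ((P * Q : GL (Fin 3) F) : M3 F).det = (P : M3 F).det * (Q : M3 F).det := by
  rw [Units.val_mul, Matrix.det_mul]

/-- membership of diagonal automorphisms -/
theorem diag_mem {G : Subgroup (MulAut (SL3 F))} (hI : Inn F ≤ G) (P : GL (Fin 3) F) (c : F)
    (h : (P : M3 F).det = c ^ 3) : diagAut P ∈ G := by
  obtain ⟨m, hm⟩ := diag_cube P c h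
  rw [hm]
  exact hI ⟨m, rfl⟩

theorem inn_extC (P : GL (Fin 3) F) : Inn F ≤ GraphExtC P := by
  rintro _ ⟨m, rfl⟩
  refine ⟨MulAut.conj ((diagAut P)⁻¹ m), Subgroup.subset_closure (Or.inl ⟨_, rfl⟩), ?_⟩
  ext g : 1
  show (diagAut P * MulAut.conj ((diagAut P)⁻¹ m) * (diagAut P)⁻¹) g = MulAut.conj m g
  rw [MulAut.mul_apply, MulAut.mul_apply, MulAut.conj_apply, MulAut.conj_apply, map_mul, map_mul,
    map_inv, MulAut.apply_inv_self, MulAut.apply_inv_self]

end GPA

open GPA in
theorem gpa_thm : GPAStmt := by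
  intro F _ _ hF r ρ hρ hpol hI
  set G := Subgroup.closure (Set.range ρ) with hG
  obtain ⟨i0, P0, hs0, h0⟩ := hpol
  have hi0 : graphAut F * diagAut P0 ∈ G := by
    rw [← h0]
    exact Subgroup.subset_closure ⟨i0, rfl⟩
  by_cases hcase : ∀ (i : Fin r) (P : GL (Fin 3) F),
      (P : M3 F).transpose = (P : M3 F) → ρ i = graphAut F * diagAut P →
      ∃ c : F, ((P0⁻¹ * P : GL (Fin 3) F) : M3 F).det = c ^ 3
  · -- the graph extension
    right
    refine ⟨P0, ?_⟩
    have hgr : MulAut.conj (diagAut P0) (graphAut F) = graphAut F * diagAut (P0⁻¹ * P0⁻¹) := by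
      rw [MulAut.conj_apply, diag_graph P0 hs0, mul_assoc, ← diag_inv, ← diag_mul]
    have hgr' : graphAut F * diagAut (P0⁻¹ * P0⁻¹) ∈ GraphExtC P0 := by
      rw [← hgr]
      exact ⟨graphAut F, Subgroup.subset_closure (Or.inr rfl), rfl⟩
    apply le_antisymm
    · rw [hG, Subgroup.closure_le]
      rintro _ ⟨i, rfl⟩
      rcases hρ i with ⟨h, _, hh⟩ | ⟨P, hs, hP⟩
      · rw [hh]
        exact inn_extC P0 ⟨h, rfl⟩
      · obtain ⟨c, hc⟩ := hcase i P hs hP
        rw [hP]
        have e : graphAut F * diagAut P =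
            (graphAut F * diagAut (P0⁻¹ * P0⁻¹)) * diagAut (P0 * P0 * P) := by
          rw [mul_assoc, ← diag_mul]
          congr 2
          group
        rw [e]
        refine mul_mem hgr' (diag_mem (inn_extC P0) _ (c * (P0 : M3 F).det) ?_)
        rw [det_mul', det_inv] at hc
        rw [det_mul', det_mul', mul_pow, ← hc]
        have := det_ne P0
        field_simp
    · rw [GraphExtC, GraphExt, Subgroup.map_le_iff_le_comap, Subgroup.closure_le]
      rintro x (⟨m, rfl⟩ | hx)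
      · show MulAut.conj (diagAut P0) (MulAut.conj m) ∈ G
        apply hI
        refine ⟨diagAut P0 m, ?_⟩
        ext g : 1
        rw [MulAut.conj_apply, MulAut.conj_apply, MulAut.mul_apply, MulAut.mul_apply,
          MulAut.conj_apply, map_mul, map_mul, map_inv, MulAut.apply_inv_self]
      · have hx' : x = graphAut F := hx
        rw [hx']
        show MulAut.conj (diagAut P0) (graphAut F) ∈ G
        rw [hgr]
        have e : graphAut F * diagAut (P0⁻¹ * P0⁻¹) =
            (graphAut F * diagAut P0) * diagAut (P0⁻¹ * P0⁻¹ * P0⁻¹) := by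
          rw [mul_assoc, ← diag_mul]
          congr 2
          group
        rw [e]
        refine mul_mem hi0 (diag_mem hI _ ((P0 : M3 F).det)⁻¹ ?_)
        rw [det_mul', det_mul', det_inv]
        ring
  · left
    push Not at hcase
    obtain ⟨i1, P1, hs1, h1, hc1⟩ := hcase
    have hi1 : graphAut F * diagAut P1 ∈ G := by
      rw [← h1]
      exact Subgroup.subset_closure ⟨i1, rfl⟩
    set R : GL (Fin 3) F := P0⁻¹ * P1 with hR
    have hRG : diagAut R ∈ G := by
      have e : diagAut R = (graphAut F * diagAut P0)⁻¹ * (graphAut F * diagAut P1) := by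
        rw [hR, diag_mul, diag_inv]
        group
      rw [e]
      exact mul_mem (inv_mem hi0) hi1
    have hall : ∀ Q : GL (Fin 3) F, diagAut Q ∈ G := by
      intro Q
      obtain ⟨k, c, hkc⟩ := cube_class (x := (R : M3 F).det) (y := (Q : M3 F).det)
        (det_ne R) (det_ne Q) (by rintro ⟨c, hc⟩; exact hc1 c hc)
      have e : diagAut Q = diagAut R ^ k * diagAut ((R ^ k)⁻¹ * Q) := by
        rw [← diag_pow, ← diag_mul]
        congr 1
        group
      rw [e]
      refine mul_mem (pow_mem hRG k) (diag_mem hI _ c ?_)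
      rw [det_mul', det_inv, Units.val_pow_eq_pow_val, Matrix.det_pow, hkc]
      have := pow_ne_zero k (det_ne R)
      field_simp
    have hgG : graphAut F ∈ G := by
      have e : graphAut F = (graphAut F * diagAut P0) * (diagAut P0)⁻¹ := by group
      rw [e]
      exact mul_mem hi0 (inv_mem (hall P0))
    apply le_antisymm
    · rw [hG, Subgroup.closure_le]
      rintro _ ⟨i, rfl⟩
      have hd : ∀ P : GL (Fin 3) F, diagAut P ∈ DiagExt F := fun P =>
        Subgroup.subset_closure (Or.inl ⟨P, rfl⟩)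
      have hg : graphAut F ∈ DiagExt F := Subgroup.subset_closure (Or.inr rfl)
      rcases hρ i with ⟨h, _, hh⟩ | ⟨P, hs, hP⟩
      · rw [hh]
        obtain ⟨P, hP⟩ := conj_diag h
        rw [hP]
        exact hd P
      · rw [hP]
        exact mul_mem hg (hd P)
    · rw [DiagExt, Subgroup.closure_le]
      rintro x (⟨P, rfl⟩ | hx)
      · exact hall P
      · have hx' : x = graphAut F := hx
        rw [hx']
        exact hgG

end Pool.Agent.H1.SCG2
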