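import Pool.Agent.H24.SCG2.Base2

/-!
S5Z: strings of automorphisms lift to strings modulo scalars.
-/

namespace Pool.Agent.H1.SCG2

open Matrix Pool.SCG

namespace S5Z

theorem two_ne {F : Type} [Field F] [Finite F] (h : OddP F) : (2 : F) ≠ 0 := by
  intro h2
  have h3 : addOrderOf (1 : F) = 2 := by
    apply addOrderOf_eq_prime
    · rw [nsmul_eq_mul, mul_one]
      exact_mod_cast h2
    · exact one_ne_zero
  have h4 := addOrderOf_dvd_natCard (1 : F)
  rw [h3] at h4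
  have := h.1
  omega

variable {F K : Type} [Field F] [Field K] [Algebra F K]

theorem lift_one (hLFT : LFTStmt) (h2 : (2 : F) ≠ 0)
    (hc : ∀ x : F, ∃ y : K, y ^ 3 = algebraMap F K x) {α : MulAut (SL3 F)} (h1 : α ≠ 1)
    (h : HomA α ∨ PolA α) : ∃ x : Cor K, Rel x α ∧ x ≠ 1 ∧ x * x = 1 := by
  obtain ⟨hH, hP⟩ := hLFT F K h2 hc α h1
  rcases h with h | h
  · obtain ⟨x, hx, _, h3, h4⟩ := hH h
    exact ⟨x, hx, h3, h4⟩
  · obtain ⟨x, hx, _, h3, h4⟩ := hP h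
    exact ⟨x, hx, h3, h4⟩

/-- commuting automorphisms give elements commuting modulo scalars -/
theorem comm_zs (hRELZ : RELZStmt) {x y : Cor K} {α β : MulAut (SL3 F)} (hx : Rel x α)
    (hy : Rel y β) (h : α * β = β * α) : ∃ z ∈ Zs K, x * y = z * (y * x) := by
  have h1 := rel_mul hx hy
  have h2 := rel_mul hy hx
  rw [h] at h1
  obtain ⟨z, hz, he⟩ := rel_left hRELZ h2 h1
  refine ⟨(y * x) * z * (y * x)⁻¹, zs_conj hz _, ?_⟩
  rw [he]
  group

theorem ncomm_zs {x y : Cor K} {α β : MulAut (SL3 F)} (hx : Rel x α)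
    (hy : Rel y β) (h : α * β ≠ β * α) : ∀ z ∈ Zs K, x * y ≠ z * (y * x) := by
  intro z hz he
  apply h
  have h1 := rel_mul hx hy
  have h2 := rel_zs_mul (rel_mul hy hx) hz
  rw [he] at h1
  exact rel_right h1 h2

theorem not_mem {T : Set (Cor K)} {S : Set (MulAut (SL3 F))}
    (h : ∀ t ∈ T, ∃ s ∈ S, Rel t s) {x : Cor K} {α : MulAut (SL3 F)} (hx : Rel x α)
    (hα : α ∉ Subgroup.closure S) : x ∉ Subgroup.closure (T ∪ Zs K) := by
  intro hm
  obtain ⟨β, hβ, hr⟩ := rel_closure h x hm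
  rw [rel_right hx hr] at hα
  exact hα hβ

theorem inter_zs (hRELZ : RELZStmt) {T T' : Set (Cor K)} {S S' : Set (MulAut (SL3 F))}
    (h : ∀ t ∈ T, ∃ s ∈ S, Rel t s) (h' : ∀ t ∈ T', ∃ s ∈ S', Rel t s)
    (hi : ∀ x ∈ Subgroup.closure S, x ∈ Subgroup.closure S' → x = 1) :
    ∀ x ∈ Subgroup.closure (T ∪ Zs K), x ∈ Subgroup.closure (T' ∪ Zs K) → x ∈ Zs K := by
  intro x hx hx'
  obtain ⟨α, hα, hr⟩ := rel_closure h x hx
  obtain ⟨β, hβ, hr'⟩ := rel_closure h' x hx'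
  rw [← rel_right hr hr'] at hβ
  rw [hi α hα hβ] at hr
  exact hRELZ F K x hr

end S5Z

open S5Z in
theorem s5z_thm (hRELZ : RELZStmt) (hLFT : LFTStmt) (hLIF5 : LIF5Stmt) : S5ZStmt := by
  intro F K _ _ _ _ _ hF hK hc a b c d e hs ha hb hcc hd he
  have h2 := two_ne hF
  have h2K := two_ne hK
  obtain ⟨a0, ra, na, sa⟩ := lift_one hLFT h2 hc hs.ia.1 ha
  obtain ⟨b0, rb, nb, sb⟩ := lift_one hLFT h2 hc hs.ib.1 hb
  obtain ⟨c0, rc, nc, sc⟩ := lift_one hLFT h2 hc hs.ic.1 hcc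
  obtain ⟨d0, rd, nd, sd⟩ := lift_one hLFT h2 hc hs.id.1 hd
  obtain ⟨e0, re, ne, se⟩ := lift_one hLFT h2 hc hs.ie.1 he
  obtain ⟨a', b', c', d', e', ⟨za, hza, ea⟩, ⟨zb, hzb, eb⟩, ⟨zc, hzc, ec⟩, ⟨zd, hzd, ed⟩,
    ⟨ze, hze, ee⟩, hR⟩ := hLIF5 K h2K a0 b0 c0 d0 e0 na nb nc nd ne sa sb sc sd se
      (comm_zs hRELZ ra rc hs.ac) (comm_zs hRELZ ra rd hs.ad) (comm_zs hRELZ ra re hs.ae)
      (comm_zs hRELZ rb rd hs.bd) (comm_zs hRELZ rb re hs.be) (comm_zs hRELZ rc re hs.ce)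
  have ra' : Rel a' a := ea ▸ rel_mul_zs ra hza
  have rb' : Rel b' b := eb ▸ rel_mul_zs rb hzb
  have rc' : Rel c' c := ec ▸ rel_mul_zs rc hzc
  have rd' : Rel d' d := ed ▸ rel_mul_zs rd hzd
  have re' : Rel e' e := ee ▸ rel_mul_zs re hze
  refine ⟨a', b', c', d', e', ra', rb', rc', rd', re', ?_⟩
  exact
    { ia := hR.ia
      ib := hR.ib
      ic := hR.ic
      id := hR.id
      ie := hR.ie
      ac := hR.ac
      ad := hR.ad
      ae := hR.ae
      bd := hR.bd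
      bdx := hR.bdx
      be := hR.be
      ce := hR.ce
      ab := ncomm_zs ra' rb' hs.ab
      bc := ncomm_zs rb' rc' hs.bc
      cd := ncomm_zs rc' rd' hs.cd
      de := ncomm_zs rd' re' hs.de
      v1 := by
        refine not_mem (S := {a, b, c, d}) ?_ re' hs.v1
        rintro t (rfl | rfl | rfl | rfl)
        · exact ⟨a, by simp, ra'⟩
        · exact ⟨b, by simp, rb'⟩
        · exact ⟨c, by simp, rc'⟩
        · exact ⟨d, by simp, rd'⟩
      v2 := by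
        refine not_mem (S := {b, c, d, e}) ?_ ra' hs.v2
        rintro t (rfl | rfl | rfl | rfl)
        · exact ⟨b, by simp, rb'⟩
        · exact ⟨c, by simp, rc'⟩
        · exact ⟨d, by simp, rd'⟩
        · exact ⟨e, by simp, re'⟩
      v3 := by
        refine inter_zs hRELZ (S := {a, b}) (S' := {c, d, e}) ?_ ?_ hs.v3
        · rintro t (rfl | rfl)
          · exact ⟨a, by simp, ra'⟩
          · exact ⟨b, by simp, rb'⟩
        · rintro t (rfl | rfl | rfl)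
          · exact ⟨c, by simp, rc'⟩
          · exact ⟨d, by simp, rd'⟩
          · exact ⟨e, by simp, re'⟩
      v4 := by
        refine inter_zs hRELZ (S := {d, e}) (S' := {a, b, c}) ?_ ?_ hs.v4
        · rintro t (rfl | rfl)
          · exact ⟨d, by simp, rd'⟩
          · exact ⟨e, by simp, re'⟩
        · rintro t (rfl | rfl | rfl)
          · exact ⟨a, by simp, ra'⟩
          · exact ⟨b, by simp, rb'⟩
          · exact ⟨c, by simp, rc'⟩ }

end Pool.Agent.H1.SCG2
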