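import Pool.Agent.H24.SCG2.Stmts1

/-!
T5C: the monomial strings and base change.
-/

namespace Pool.Agent.H1.SCG2

open Matrix Pool.SCG

theorem cj_s {F : Type} [Field F] (P : SL3 F) (x : Cor F) : (cj P x).s = x.s := by
  simp [cj]

theorem cj_cj {F : Type} [Field F] (P Q : SL3 F) (x : Cor F) :
    cj Q (cj P x) = cj (P * Q) x := by
  simp only [cj, inn_mul]
  group

theorem cj_pow {F : Type} [Field F] (P : SL3 F) (x : Cor F) (n : ℕ) :
    cj P (x ^ n) = cj P x ^ n := by
  rw [← cjE_apply, map_pow, cjE_apply]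

theorem t5c_thm : T5CStmt := by
  intro F _ P a b c d e h
  refine ⟨?_, ?_, ?_, ?_, ?_, ?_, ?_⟩
  · rw [← cj_s P]; exact h.sa
  · rw [← cj_s P]; exact h.sb
  · have := h.scd
    rwa [cj_s, cj_s] at this
  · rw [← cj_s P]; exact h.se
  · have := h.cd3
    rw [← cj_mul, ← cj_pow, ← cj_one P] at this
    exact cj_injective P this
  · intro hc hab
    have := h.ab3 (by rw [cj_s]; exact hc)
    apply this
    rw [← cj_mul, ← cj_pow, hab, cj_one]
  · obtain ⟨Q, h1, h2, h3, h4, h5⟩ := h.mono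
    exact ⟨P * Q, by rw [← cj_cj]; exact h1, by rw [← cj_cj]; exact h2,
      by rw [← cj_cj]; exact h3, by rw [← cj_cj]; exact h4, by rw [← cj_cj]; exact h5⟩

end Pool.Agent.H1.SCG2
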